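import Pool.Agent.Schreier60.GoodEvent

set_option autoImplicit false

namespace Pool.Agent.Results.MP_413f51_pr.InfiniteOrbit

open MeasureTheory Pool.Agent.Schreier60

/-- The square lattice: the vertices are the points of `ℤ × ℤ`, and there is an edge between any
two points at Euclidean distance `1`. -/
def squareLattice : SimpleGraph (ℤ × ℤ) where
  Adj u v := (u.1 - v.1) ^ 2 + (u.2 - v.2) ^ 2 = 1
  symm := by
    constructor
    intro u v h
    rw [← h]; ring
  loopless := by
    constructor
    intro u h
    simp at h

/-- `A c u v` says that there is an edge of colour `c` oriented from `u` to `v`.  Such an `A` is a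
Schreier decoration of `G` if it only uses edges of `G`, every edge of `G` has exactly one colour
and exactly one orientation, and at every vertex exactly one outgoing and exactly one incoming edge
has each colour. -/
structure IsSchreierDecoration {W C : Type*} (G : SimpleGraph W) (A : C → W → W → Prop) :
    Prop where
  isEdge : ∀ c u v, A c u v → G.Adj u v
  colour : ∀ u v, G.Adj u v → ∃! c, A c u v ∨ A c v u
  orient : ∀ c u v, A c u v → ¬ A c v u
  out : ∀ c v, ∃! w, A c v w
  into : ∀ c v, ∃! w, A c w v

/-- There is a bi-infinite path all of whose edges have the same colour. -/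
def HasInfiniteMonochromaticPath {W C : Type*} (A : C → W → W → Prop) : Prop :=
  ∃ (c : C) (p : ℤ → W), Function.Injective p ∧ ∀ i, A c (p i) (p (i + 1))

/-- `Φ` maps labellings of the vertices by `[0, 1]` to (coloured, oriented) edge sets, it is
measurable, and it is equivariant under all automorphisms of `G`. -/
structure IsFactorMap {W C : Type*} (G : SimpleGraph W)
    (Φ : (W → unitInterval) → C → W → W → Prop) : Prop where
  measurable : Measurable Φ
  equivariant : ∀ (g : G ≃g G) (ω : W → unitInterval) (c : C) (u v : W),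
    Φ (fun w => ω (g.symm w)) c (g u) (g v) ↔ Φ ω c u v

lemma adj_iff (u v : V) : squareLattice.Adj u v ↔ Adj u v := by
  change (u.1 - v.1) ^ 2 + (u.2 - v.2) ^ 2 = 1 ↔ _
  unfold Adj
  constructor
  · intro h
    have h1 : u.1 - v.1 ≤ 1 := by nlinarith [sq_nonneg (u.2 - v.2)]
    have h2 : -1 ≤ u.1 - v.1 := by nlinarith [sq_nonneg (u.2 - v.2)]
    have h3 : u.2 - v.2 ≤ 1 := by nlinarith [sq_nonneg (u.1 - v.1)]
    have h4 : -1 ≤ u.2 - v.2 := by nlinarith [sq_nonneg (u.1 - v.1)]
    have h5 : u.1 - v.1 = -1 ∨ u.1 - v.1 = 0 ∨ u.1 - v.1 = 1 := by omega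
    have h6 : u.2 - v.2 = -1 ∨ u.2 - v.2 = 0 ∨ u.2 - v.2 = 1 := by omega
    rcases h5 with h5 | h5 | h5 <;> rcases h6 with h6 | h6 | h6 <;> rw [h5, h6] at h <;>
      norm_num at h <;> omega
  · rintro (⟨h1, h2 | h2⟩ | ⟨h1, h2 | h2⟩) <;> rw [h1, h2] <;> ring

/-- Graph automorphisms give automorphisms in the sense of the helper files. -/
lemma isAut_of (g : squareLattice ≃g squareLattice) : IsAut (g.toEquiv : Equiv.Perm V) := by
  intro u v
  rw [← adj_iff, ← adj_iff]
  exact g.map_rel_iff'

/-- Permutations with the right local properties give a Schreier decoration. -/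
lemma decoration_of {A : Bool → V → V → Prop} {s b : Equiv.Perm V}
    (hs : ∀ u v, A true u v ↔ s u = v) (hb : ∀ u v, A false u v ↔ b u = v)
    (h : ∀ v, Adj v (s v) ∧ s (s v) ≠ v ∧ NR s v (b v) ∧ b (b v) ≠ v) :
    IsSchreierDecoration squareLattice A where
  isEdge := by
    intro c u v hA
    rw [adj_iff]
    cases c with
    | true => rw [hs] at hA; subst hA; exact (h u).1
    | false => rw [hb] at hA; subst hA; exact (h u).2.2.1.1
  colour := by
    intro u v huv
    rw [adj_iff] at huv
    have hnot : ¬ ((s u = v ∨ s v = u) ∧ (b u = v ∨ b v = u)) := by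
      rintro ⟨h1, h2 | h2⟩
      · have k := (h u).2.2.1
        rw [h2] at k
        rcases h1 with h1 | h1
        · exact k.2.1 h1
        · exact k.2.2 h1
      · have k := (h v).2.2.1
        rw [h2] at k
        rcases h1 with h1 | h1
        · exact k.2.2 h1
        · exact k.2.1 h1
    have hone : (s u = v ∨ s v = u) ∨ (b u = v ∨ b v = u) := by
      by_contra hcon
      push Not at hcon
      obtain ⟨⟨c1, c2⟩, c3, c4⟩ := hcon
      have hNR : NR s u v := ⟨huv, c1, c2⟩
      have hinv : Adj u (s⁻¹ u) := by
        have := (h (s⁻¹ u)).1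
        simpa using this.symm
      obtain ⟨x, y, hxy, hw⟩ := two_NR (h u).1 hinv (h u).2.1
      have k1 : NR s u (b u) := (h u).2.2.1
      have k2 : NR s u (b⁻¹ u) := by
        have := (h (b⁻¹ u)).2.2.1
        simpa using this.symm
      have k3 : b u ≠ b⁻¹ u := by
        intro e
        apply (h u).2.2.2
        rw [e]; simp
      have c4' : b⁻¹ u ≠ v := by
        intro e
        apply c4
        rw [← e]; simp
      rw [hw] at hNR k1 k2
      rcases hNR with e1 | e1 <;> rcases k1 with e2 | e2 <;> rcases k2 with e3 | e3
      · exact k3 (e2.trans e3.symm)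
      · exact c3 (e2.trans e1.symm)
      · exact c4' (e3.trans e1.symm)
      · exact k3 (e2.trans e3.symm)
      · exact k3 (e2.trans e3.symm)
      · exact c4' (e3.trans e1.symm)
      · exact c3 (e2.trans e1.symm)
      · exact k3 (e2.trans e3.symm)
    rcases hone with h1 | h1
    · refine ⟨true, ?_, ?_⟩
      · change A true u v ∨ A true v u
        rw [hs, hs]; exact h1
      · intro c hc
        cases c with
        | true => rfl
        | false =>
          rw [hb, hb] at hc
          exact absurd ⟨h1, hc⟩ hnot
    · refine ⟨false, ?_, ?_⟩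
      · change A false u v ∨ A false v u
        rw [hb, hb]; exact h1
      · intro c hc
        cases c with
        | false => rfl
        | true =>
          rw [hs, hs] at hc
          exact absurd ⟨hc, h1⟩ hnot
  orient := by
    intro c u v h1 h2
    cases c with
    | true =>
      rw [hs] at h1 h2
      subst h1
      exact (h u).2.1 h2
    | false =>
      rw [hb] at h1 h2
      subst h1
      exact (h u).2.2.2 h2
  out := by
    intro c v
    cases c with
    | true => exact ⟨s v, (hs _ _).2 rfl, fun w hw => ((hs _ _).1 hw).symm⟩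
    | false => exact ⟨b v, (hb _ _).2 rfl, fun w hw => ((hb _ _).1 hw).symm⟩
  into := by
    intro c v
    cases c with
    | true =>
      refine ⟨s⁻¹ v, (hs _ _).2 (by simp), fun w hw => ?_⟩
      have := (hs _ _).1 hw
      rw [← this]; simp
    | false =>
      refine ⟨b⁻¹ v, (hb _ _).2 (by simp), fun w hw => ?_⟩
      have := (hb _ _).1 hw
      rw [← this]; simp

/-- There is a factor of iid Schreier decoration of the square lattice which almost surely has an
infinite monochromatic path. -/
theorem result : ∃ Φ : (ℤ × ℤ → unitInterval) → Bool → ℤ × ℤ → ℤ × ℤ → Prop,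
    IsFactorMap squareLattice Φ ∧
    ∀ᵐ ω ∂(Measure.infinitePi fun _ : ℤ × ℤ => (volume : Measure unitInterval)),
      IsSchreierDecoration squareLattice (Φ ω) ∧ HasInfiniteMonochromaticPath (Φ ω) := by
  refine ⟨fun ω c u v => Arr lZ SS ω c u v, ⟨?_, ?_⟩, ?_⟩
  · refine measurable_pi_lambda _ fun c => measurable_pi_lambda _ fun u =>
      measurable_pi_lambda _ fun v => ?_
    exact (measurableSet_setOfPred.1 (measurableSet_Arr lZ_spec SS_meas c u v))
  · intro g ω c u v
    have h := Arr_equivariant (ell := lZ) (S := SS) (isAut_of g) (fun w => ω (g.symm w)) c u v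
    have e : sh (fun w => ω (g.symm w)) (g.toEquiv : Equiv.Perm V) = ω := by
      funext w
      change ω (g.symm (g w)) = ω w
      rw [RelIso.symm_apply_apply]
    rw [e] at h
    exact h.symm
  · have hgood := ae_good
    unfold mu at hgood
    filter_upwards [hgood] with ω hω
    obtain ⟨s, b, hs, hb, h, u₀, hu₀⟩ := good_limit lZ_spec hω
    refine ⟨decoration_of hs hb h, true, fun i => (s ^ i) u₀, ?_, ?_⟩
    · intro i j hij
      by_contra hne
      exact hu₀ i j hne hij
    · intro i
      rw [hs]
      change s ((s ^ i) u₀) = (s ^ (i + 1)) u₀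
      rw [add_comm, zpow_add, zpow_one]
      rfl

end Pool.Agent.Results.MP_413f51_pr.InfiniteOrbit
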